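import Mathlib

set_option autoImplicit false

namespace Pool.Agent.Sq3

/-- rounding: some translate of `f` by a multiple of `a` is at most `a/2` in absolute value -/
lemma exists_round (a : ℤ) (ha : 0 < a) (f : ℤ) : ∃ t : ℤ, 2 * (f + t * a) ≤ a ∧ -a ≤ 2 * (f + t * a) := by
  refine ⟨-((2 * f + a) / (2 * a)), ?_, ?_⟩
  · have h := Int.emod_add_mul_ediv (2 * f + a) (2 * a)
    have h2 := Int.emod_lt_of_pos (2 * f + a) (show (0:ℤ) < 2 * a by linarith)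
    nlinarith
  · have h := Int.emod_add_mul_ediv (2 * f + a) (2 * a)
    have h1 := Int.emod_nonneg (2 * f + a) (show (2 * a : ℤ) ≠ 0 by linarith)
    nlinarith

lemma sq_bound (f a : ℤ) (h1 : 2 * f ≤ a) (h2 : -a ≤ 2 * f) : 4 * f ^ 2 ≤ a ^ 2 := by
  nlinarith [mul_nonneg (sub_nonneg.mpr h1) (show (0:ℤ) ≤ 2 * f + a by linarith)]

lemma fin_arith (a g b f k h : ℤ) (ha : 0 < a) (hg : 0 < g) (hab : a * b - f ^ 2 = g)
    (hgk : g * k - h ^ 2 = a) (hba : a ≤ b) (hkg : g ≤ k) (h1 : 4 * f ^ 2 ≤ a ^ 2)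
    (h2 : 4 * h ^ 2 ≤ g ^ 2) : a = 1 ∧ g = 1 := by
  have hA : 3 * a ^ 2 ≤ 4 * g := by
    have := mul_le_mul_of_nonneg_left hba ha.le
    nlinarith
  have hG : 3 * g ^ 2 ≤ 4 * a := by
    have := mul_le_mul_of_nonneg_left hkg hg.le
    nlinarith
  have ha1 : a = 1 := by
    by_contra hne
    have h2 : (2 : ℤ) ≤ a := by omega
    by_cases hg2 : (2 : ℤ) ≤ g
    · nlinarith
    · have : g = 1 := by omega
      subst this
      nlinarith
  refine ⟨ha1, ?_⟩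
  by_contra hne
  have h2 : (2 : ℤ) ≤ g := by omega
  subst ha1
  nlinarith

/-- A positive definite integral ternary form of determinant one takes only values that are sums
of three integer squares. -/
theorem ternary_det_one (N : ℤ) : ∀ (a g : ℕ) (b c d e f x y z : ℤ), 0 < a → 0 < g →
    (a : ℤ) * b - f ^ 2 = g →
    (a : ℤ) * (b * c - d ^ 2) - f * (f * c - d * e) + e * (f * d - b * e) = 1 →
    (a : ℤ) * x ^ 2 + b * y ^ 2 + c * z ^ 2 + 2 * d * y * z + 2 * e * x * z + 2 * f * x * y = N →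
    ∃ u v w : ℤ, N = u ^ 2 + v ^ 2 + w ^ 2 := by
  intro a
  induction a using Nat.strong_induction_on with
  | _ a iha =>
  intro g
  induction g using Nat.strong_induction_on with
  | _ g ihg =>
  intro b c d e f x y z ha hg hab hdet hN
  have ha' : (0 : ℤ) < a := by exact_mod_cast ha
  have hg' : (0 : ℤ) < g := by exact_mod_cast hg
  -- step 1: make `|2 f| ≤ a`
  obtain ⟨t, ht1, ht2⟩ := exists_round (a : ℤ) ha' f
  obtain ⟨f1, hf1⟩ : ∃ f1, f1 = f + t * a := ⟨_, rfl⟩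
  obtain ⟨b1, hb1⟩ : ∃ b1, b1 = b + 2 * f * t + a * t ^ 2 := ⟨_, rfl⟩
  obtain ⟨d1, hd1⟩ : ∃ d1, d1 = d + e * t := ⟨_, rfl⟩
  obtain ⟨x1, hx1⟩ : ∃ x1, x1 = x - t * y := ⟨_, rfl⟩
  have hab1 : (a : ℤ) * b1 - f1 ^ 2 = g := by rw [hb1, hf1, ← hab]; ring
  have hdet1 : (a : ℤ) * (b1 * c - d1 ^ 2) - f1 * (f1 * c - d1 * e) + e * (f1 * d1 - b1 * e) = 1 := by
    rw [hb1, hf1, hd1, ← hdet]; ring
  have hN1 : (a : ℤ) * x1 ^ 2 + b1 * y ^ 2 + c * z ^ 2 + 2 * d1 * y * z + 2 * e * x1 * z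
      + 2 * f1 * x1 * y = N := by
    rw [hb1, hf1, hd1, hx1, ← hN]; ring
  rw [← hf1] at ht1 ht2
  have hb1pos : 0 < b1 := by
    by_contra hcon
    push Not at hcon
    have := mul_nonpos_of_nonneg_of_nonpos ha'.le hcon
    linarith [sq_nonneg f1]
  by_cases hba : b1 < a
  · -- swap x and y
    obtain ⟨bn, hbn⟩ : ∃ bn : ℕ, (bn : ℤ) = b1 := ⟨b1.toNat, Int.toNat_of_nonneg hb1pos.le⟩
    refine iha bn (by omega) g (a : ℤ) c e d1 f1 y x1 z (by omega) hg ?_ ?_ ?_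
    · rw [hbn, ← hab1]; ring
    · rw [hbn, ← hdet1]; ring
    · rw [hbn, ← hN1]; ring
  push Not at hba
  -- step 2: reduce the adjoint binary form
  obtain ⟨t2, hs1, hs2⟩ := exists_round (g : ℤ) hg' (a * d1 - e * f1)
  obtain ⟨d2, hd2⟩ : ∃ d2, d2 = d1 + t2 * b1 := ⟨_, rfl⟩
  obtain ⟨e2, he2⟩ : ∃ e2, e2 = e + t2 * f1 := ⟨_, rfl⟩
  obtain ⟨c2, hc2⟩ : ∃ c2, c2 = c + 2 * d1 * t2 + b1 * t2 ^ 2 := ⟨_, rfl⟩
  obtain ⟨y2, hy2⟩ : ∃ y2, y2 = y - t2 * z := ⟨_, rfl⟩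
  obtain ⟨h, hh⟩ : ∃ h, h = a * d2 - e2 * f1 := ⟨_, rfl⟩
  obtain ⟨k, hk⟩ : ∃ k, k = a * c2 - e2 ^ 2 := ⟨_, rfl⟩
  have hh' : h = a * d1 - e * f1 + t2 * g := by rw [hh, hd2, he2, ← hab1]; ring
  rw [← hh'] at hs1 hs2
  have hdet2 : (a : ℤ) * (b1 * c2 - d2 ^ 2) - f1 * (f1 * c2 - d2 * e2) + e2 * (f1 * d2 - b1 * e2) = 1 := by
    rw [hd2, he2, hc2, ← hdet1]; ring
  have hN2 : (a : ℤ) * x1 ^ 2 + b1 * y2 ^ 2 + c2 * z ^ 2 + 2 * d2 * y2 * z + 2 * e2 * x1 * z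
      + 2 * f1 * x1 * y2 = N := by
    rw [hd2, he2, hc2, hy2, ← hN1]; ring
  have hgk : (g : ℤ) * k - h ^ 2 = a := by
    have : (g : ℤ) * k - h ^ 2 = a * ((a : ℤ) * (b1 * c2 - d2 ^ 2) - f1 * (f1 * c2 - d2 * e2)
        + e2 * (f1 * d2 - b1 * e2)) := by
      rw [← hab1, hk, hh]; ring
    rw [this, hdet2, mul_one]
  have hkpos : 0 < k := by
    by_contra hcon
    push Not at hcon
    have := mul_nonpos_of_nonneg_of_nonpos hg'.le hcon
    linarith [sq_nonneg h]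
  by_cases hkg : k < g
  · -- swap y and z
    obtain ⟨kn, hkn⟩ : ∃ kn : ℕ, (kn : ℤ) = k := ⟨k.toNat, Int.toNat_of_nonneg hkpos.le⟩
    refine ihg kn (by omega) c2 b1 d2 f1 e2 x1 z y2 ha (by omega) ?_ ?_ ?_
    · rw [hkn, hk]
    · rw [← hdet2]; ring
    · rw [← hN2]; ring
  push Not at hkg
  obtain ⟨ha1, hg1⟩ := fin_arith (a : ℤ) g b1 f1 k h ha' hg' hab1 hgk hba hkg
    (sq_bound _ _ ht1 ht2) (sq_bound _ _ hs1 hs2)
  rw [ha1] at ht1 ht2 hab1 hdet2 hN2 hh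
  rw [hg1] at hs1 hs2 hab1
  have hf0 : f1 = 0 := by omega
  have hh0 : h = 0 := by omega
  subst hf0
  have hb : b1 = 1 := by linarith
  have hd0 : d2 = 0 := by rw [hh0] at hh; linarith
  subst hb
  subst hd0
  refine ⟨x1 + e2 * z, y2, z, ?_⟩
  have hc : c2 = 1 + e2 ^ 2 := by linarith
  rw [← hN2, hc]; ring

/-- Every positive `M ≡ 2 (mod 4)` is a sum of three integer squares. -/
theorem three_squares (M : ℕ) (hM : M % 4 = 2) : ∃ u v w : ℤ, (M : ℤ) = u ^ 2 + v ^ 2 + w ^ 2 := by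
  have hM0 : 0 < M := by omega
  have hcop : (M - 1).Coprime (4 * M) := by
    refine Nat.Coprime.mul_right ?_ ?_
    · have : (M - 1) % 4 = 1 := by omega
      have h1 : Nat.Coprime (M - 1) 2 := by
        rw [Nat.coprime_comm, Nat.Prime.coprime_iff_not_dvd Nat.prime_two]; omega
      simpa using Nat.Coprime.pow_right 2 h1
    · have := Nat.coprime_self_sub_left (n := M) (m := 1) (by omega)
      rw [this]
      exact Nat.coprime_one_left M
  obtain ⟨p, hpM, hpp, hpm⟩ := Nat.forall_exists_prime_gt_and_modEq M (q := 4 * M) (a := M - 1)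
    (by omega) hcop
  have hple : M - 1 ≤ p := by omega
  obtain ⟨v, hv⟩ : ∃ v, p = M - 1 + 4 * M * v := by
    have := (Nat.modEq_iff_dvd' hple).mp hpm.symm
    obtain ⟨v, hv⟩ := this
    exact ⟨v, by omega⟩
  obtain ⟨q, hq⟩ : ∃ q, q = 4 * v + 1 := ⟨_, rfl⟩
  have hpq : p + 1 = q * M := by
    rw [hq, hv]
    have : M - 1 + 4 * M * v + 1 = M + 4 * M * v := by omega
    rw [this]; ring
  have hq4 : q % 4 = 1 := by omega
  have hp4 : p % 4 = 1 := by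
    rw [hv]
    have : (4 * M * v) % 4 = 0 := by
      rw [mul_assoc]; exact Nat.mul_mod_right 4 _
    omega
  have : Fact p.Prime := ⟨hpp⟩
  have hpodd : Odd p := Nat.odd_iff.mpr (by omega)
  have hqodd : Odd q := Nat.odd_iff.mpr (by omega)
  have hJ : jacobiSym (-(q : ℤ)) p = 1 := by
    rw [jacobiSym.neg _ hpodd, ZMod.χ₄_nat_one_mod_four hp4, one_mul,
      jacobiSym.quadratic_reciprocity_one_mod_four hq4 hpodd]
    have : ((p : ℤ)) % q = (-1 : ℤ) % q := by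
      apply Int.emod_emod_of_dvd _ (dvd_refl _) |>.symm.trans
      have h1 : (p : ℤ) = -1 + q * M := by
        have : (p : ℤ) + 1 = q * M := by exact_mod_cast hpq
        linarith
      rw [h1, Int.add_mul_emod_self_left, Int.emod_emod_of_dvd _ (dvd_refl _)]
    rw [jacobiSym.mod_left' this, jacobiSym.at_neg_one hqodd, ZMod.χ₄_nat_one_mod_four hq4]
  rw [← jacobiSym.legendreSym.to_jacobiSym] at hJ
  have hne : ((-(q : ℤ) : ℤ) : ZMod p) ≠ 0 := by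
    intro h0
    rw [← legendreSym.eq_zero_iff] at h0
    rw [h0] at hJ
    exact zero_ne_one hJ
  rw [legendreSym.eq_one_iff p hne] at hJ
  obtain ⟨r, hr⟩ := hJ
  obtain ⟨s, hs⟩ := ZMod.intCast_surjective r
  have hdvd : (p : ℤ) ∣ s ^ 2 + q := by
    rw [← ZMod.intCast_zmod_eq_zero_iff_dvd]
    push_cast
    rw [hs]
    have : r * r = -(q : ZMod p) := by rw [← hr]; push_cast; ring
    rw [pow_two, this]; ring
  obtain ⟨A, hA⟩ := hdvd
  have hApos : 0 < A := by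
    by_contra hcon
    push Not at hcon
    have hpp' : (0 : ℤ) < p := by exact_mod_cast hpp.pos
    have hq' : (0 : ℤ) < q := by omega
    have := mul_nonpos_of_nonneg_of_nonpos hpp'.le hcon
    linarith [sq_nonneg s]
  obtain ⟨An, hAn⟩ : ∃ An : ℕ, (An : ℤ) = A := ⟨A.toNat, Int.toNat_of_nonneg hApos.le⟩
  have hpq' : (p : ℤ) + 1 = q * M := by exact_mod_cast hpq
  refine ternary_det_one (M : ℤ) An q (p : ℤ) (M : ℤ) 0 1 s 0 0 1 (by omega) (by omega) ?_ ?_ ?_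
  · rw [hAn]; linarith
  · rw [hAn]
    have : A * p = s ^ 2 + q := by rw [hA]; ring
    have h2 : A * ((p : ℤ) * M - 0 ^ 2) - s * (s * M - 0 * 1) + 1 * (s * 0 - p * 1)
        = (A * p) * M - s ^ 2 * M - p := by ring
    rw [h2, this]
    have h3 : (s ^ 2 + (q : ℤ)) * M - s ^ 2 * M - p = q * M - p := by ring
    rw [h3, ← hpq']; ring
  · ring

end Pool.Agent.Sq3
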