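import Mathlib
import Pool.Agent.Sq3.Three

set_option autoImplicit false

namespace Pool.Agent.Sq3

/-- the four congruences that make the quotient quaternion integral -/
def Cg (m s a b c : ℤ) : Prop :=
  m ∣ s - 2 * a - 3 * b ∧ m ∣ 2 * s + a - 3 * c ∧ m ∣ 3 * s + b + 2 * c ∧ m ∣ c + 3 * a - 2 * b

lemma mod7Z : ∀ s a b c : ZMod 7, s ≠ 0 → s * s + a * a + b * b + c * c = 0 →
    ∃ e f g h : Bool,
      (fun a' b' c' : ZMod 7 => s - 2 * a' - 3 * b' = 0 ∧ 2 * s + a' - 3 * c' = 0 ∧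
        3 * s + b' + 2 * c' = 0 ∧ c' + 3 * a' - 2 * b' = 0)
        ((if e then 1 else -1) * (if h then a else c)) ((if f then 1 else -1) * b)
        ((if g then 1 else -1) * (if h then c else a)) := by
  decide +kernel

lemma cg7 (s a b c : ℤ) (hs : ¬ (7 : ℤ) ∣ s) (h : (7 : ℤ) ∣ s ^ 2 + a ^ 2 + b ^ 2 + c ^ 2) :
    ∃ e f g : ℤ, e ^ 2 = 1 ∧ f ^ 2 = 1 ∧ g ^ 2 = 1 ∧
      (Cg 7 s (e * a) (f * b) (g * c) ∨ Cg 7 s (e * c) (f * b) (g * a)) := by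
  have h7 : ∀ z : ℤ, (7 : ℤ) ∣ z ↔ ((z : ℤ) : ZMod 7) = 0 := fun z =>
    (ZMod.intCast_zmod_eq_zero_iff_dvd z 7).symm
  rw [h7] at hs h
  push_cast at h
  obtain ⟨e, f, g, k, hk⟩ := mod7Z (s : ZMod 7) a b c hs (by rw [← h]; ring)
  refine ⟨if e then 1 else -1, if f then 1 else -1, if g then 1 else -1, by cases e <;> simp,
    by cases f <;> simp, by cases g <;> simp, ?_⟩
  cases k
  · right
    unfold Cg
    simp only [h7]
    push_cast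
    simpa using hk
  · left
    unfold Cg
    simp only [h7]
    push_cast
    simpa using hk

lemma pm_one (e : ℤ) (he : e ^ 2 = 1) : e = 1 ∨ e = -1 := by
  have : (e - 1) * (e + 1) = 0 := by linear_combination he
  rcases mul_eq_zero.mp this with h | h
  · left; omega
  · right; omega

lemma cg2 (s a b c e f g : ℤ) (hs : (2 : ℤ) ∣ s) (hb : (2 : ℤ) ∣ b) (hac : (2 : ℤ) ∣ a + c)
    (he : e ^ 2 = 1) (hf : f ^ 2 = 1) (hg : g ^ 2 = 1) :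
    Cg 2 s (e * a) (f * b) (g * c) := by
  unfold Cg
  rcases pm_one e he with rfl | rfl <;> rcases pm_one f hf with rfl | rfl <;>
    rcases pm_one g hg with rfl | rfl <;> refine ⟨?_, ?_, ?_, ?_⟩ <;> omega

/-- from the congruences modulo `14` to an integral quadruple -/
lemma quot (n s a b c : ℤ) (hn : s ^ 2 + a ^ 2 + b ^ 2 + c ^ 2 = 14 * n ^ 2)
    (h2 : Cg 2 s a b c) (h7 : Cg 7 s a b c) :
    ∃ x y z w : ℤ, n ^ 2 = x ^ 2 + y ^ 2 + z ^ 2 + w ^ 2 ∧ x + 2 * y + 3 * z = s := by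
  obtain ⟨p1, p2, p3, p4⟩ := h2
  obtain ⟨q1, q2, q3, q4⟩ := h7
  have k1 : (14 : ℤ) ∣ s - 2 * a - 3 * b := by omega
  have k2 : (14 : ℤ) ∣ 2 * s + a - 3 * c := by omega
  have k3 : (14 : ℤ) ∣ 3 * s + b + 2 * c := by omega
  have k4 : (14 : ℤ) ∣ c + 3 * a - 2 * b := by omega
  obtain ⟨x, hx⟩ := k1
  obtain ⟨y, hy⟩ := k2
  obtain ⟨z, hz⟩ := k3
  obtain ⟨w, hw⟩ := k4
  refine ⟨x, y, z, w, ?_, by omega⟩
  have : 196 * (x ^ 2 + y ^ 2 + z ^ 2 + w ^ 2) = 14 * (s ^ 2 + a ^ 2 + b ^ 2 + c ^ 2) := by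
    have e1 : 196 * (x ^ 2 + y ^ 2 + z ^ 2 + w ^ 2)
        = (14 * x) ^ 2 + (14 * y) ^ 2 + (14 * z) ^ 2 + (14 * w) ^ 2 := by ring
    rw [e1, ← hx, ← hy, ← hz, ← hw]; ring
  rw [hn] at this
  linarith

lemma main_even (n s a b c : ℤ) (hn : s ^ 2 + a ^ 2 + b ^ 2 + c ^ 2 = 14 * n ^ 2)
    (hs7 : ¬ (7 : ℤ) ∣ s) (hs : (2 : ℤ) ∣ s) (hb : (2 : ℤ) ∣ b) (hac : (2 : ℤ) ∣ a + c) :
    ∃ x y z w : ℤ, n ^ 2 = x ^ 2 + y ^ 2 + z ^ 2 + w ^ 2 ∧ x + 2 * y + 3 * z = s := by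
  have hd : (7 : ℤ) ∣ s ^ 2 + a ^ 2 + b ^ 2 + c ^ 2 := ⟨2 * n ^ 2, by rw [hn]; ring⟩
  obtain ⟨e, f, g, he, hf, hg, h | h⟩ := cg7 s a b c hs7 hd
  · refine quot n s (e * a) (f * b) (g * c) ?_ (cg2 s a b c e f g hs hb hac he hf hg) h
    rw [mul_pow, mul_pow, mul_pow, he, hf, hg, ← hn]; ring
  · refine quot n s (e * c) (f * b) (g * a) ?_
      (cg2 s c b a e f g hs hb (by rwa [add_comm]) he hf hg) h
    rw [mul_pow, mul_pow, mul_pow, he, hf, hg, ← hn]; ring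

/-- `s` even and prime to `7`, `n` odd, `s^2 < 14 n^2`: an integral quadruple exists -/
lemma exists_int_odd (n s : ℕ) (hn : n % 2 = 1) (hs : s % 4 = 0) (hs7 : ¬ 7 ∣ s)
    (h : s ^ 2 ≤ 14 * n ^ 2) :
    ∃ x y z w : ℤ, (n : ℤ) ^ 2 = x ^ 2 + y ^ 2 + z ^ 2 + w ^ 2 ∧ x + 2 * y + 3 * z = s := by
  obtain ⟨M, hM⟩ : ∃ M, M = 14 * n ^ 2 - s ^ 2 := ⟨_, rfl⟩
  have hM1 : M + s ^ 2 = 14 * n ^ 2 := by omega
  have hn2 : n ^ 2 % 2 = 1 := by rw [Nat.pow_mod, hn]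
  have hs2 : s ^ 2 % 4 = 0 := by rw [Nat.pow_mod, hs]
  have hM4 : M % 4 = 2 := by omega
  obtain ⟨u, v, w, huvw⟩ := three_squares M hM4
  have hMz : (M : ℤ) + (s : ℤ) ^ 2 = 14 * (n : ℤ) ^ 2 := by exact_mod_cast hM1
  have hMz4 : (M : ℤ) % 4 = 2 := by omega
  have hs7' : ¬ (7 : ℤ) ∣ (s : ℤ) := by exact_mod_cast hs7
  have hs2' : (2 : ℤ) ∣ (s : ℤ) := by omega
  -- parities
  have hp : ∀ z : ℤ, (z % 2 = 0 ∧ z ^ 2 % 4 = 0) ∨ (z % 2 = 1 ∧ z ^ 2 % 4 = 1) := by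
    intro z
    rcases Int.even_or_odd' z with ⟨k, rfl | rfl⟩
    · left; constructor
      · omega
      · have : (2 * k) ^ 2 = 4 * k ^ 2 := by ring
        omega
    · right; constructor
      · omega
      · have : (2 * k + 1) ^ 2 = 4 * (k ^ 2 + k) + 1 := by ring
        omega
  rcases hp u with ⟨hu, hu'⟩ | ⟨hu, hu'⟩ <;> rcases hp v with ⟨hv, hv'⟩ | ⟨hv, hv'⟩ <;>
    rcases hp w with ⟨hw, hw'⟩ | ⟨hw, hw'⟩ <;> try (exfalso; omega)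
  · exact main_even n s v u w (by linarith) hs7' hs2' (by omega) (by omega)
  · exact main_even n s u v w (by linarith) hs7' hs2' (by omega) (by omega)
  · exact main_even n s u w v (by linarith) hs7' hs2' (by omega) (by omega)

/-- the case `n = 2 m`, `m` odd, `s` divisible by `8` -/
lemma exists_int_even (m s : ℕ) (hm : m % 2 = 1) (hs : s % 4 = 0) (hs7 : ¬ 7 ∣ s)
    (h : s ^ 2 ≤ 14 * m ^ 2) :
    ∃ x y z w : ℤ, ((2 * m : ℕ) : ℤ) ^ 2 = x ^ 2 + y ^ 2 + z ^ 2 + w ^ 2 ∧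
      x + 2 * y + 3 * z = ((2 * s : ℕ) : ℤ) := by
  obtain ⟨x, y, z, w, h1, h2⟩ := exists_int_odd m s hm hs hs7 h
  refine ⟨2 * x, 2 * y, 2 * z, 2 * w, ?_, ?_⟩
  · push_cast
    rw [mul_pow, h1]; ring
  · push_cast
    rw [← h2]; ring

lemma nonneg_of (n s x y z w : ℤ) (hs : 0 < s) (h13 : 13 * n ^ 2 ≤ s ^ 2)
    (h1 : n ^ 2 = x ^ 2 + y ^ 2 + z ^ 2 + w ^ 2) (h2 : x + 2 * y + 3 * z = s) :
    0 ≤ x ∧ 0 ≤ y ∧ 0 ≤ z := by
  refine ⟨?_, ?_, ?_⟩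
  · by_contra hx
    push Not at hx
    have h3 : s < 2 * y + 3 * z := by linarith
    have h4 : s ^ 2 < (2 * y + 3 * z) ^ 2 := by nlinarith
    nlinarith [sq_nonneg (3 * y - 2 * z), sq_nonneg w, sq_nonneg x]
  · by_contra hx
    push Not at hx
    have h3 : s < x + 3 * z := by linarith
    have h4 : s ^ 2 < (x + 3 * z) ^ 2 := by nlinarith
    nlinarith [sq_nonneg (3 * x - z), sq_nonneg w, sq_nonneg y, sq_nonneg x, sq_nonneg z]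
  · by_contra hx
    push Not at hx
    have h3 : s < x + 2 * y := by linarith
    have h4 : s ^ 2 < (x + 2 * y) ^ 2 := by nlinarith
    nlinarith [sq_nonneg (2 * x - y), sq_nonneg w, sq_nonneg y, sq_nonneg x, sq_nonneg z]

end Pool.Agent.Sq3
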