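import Mathlib
import Pool.Agent.Sq3.Quat

set_option autoImplicit false

namespace Pool.Agent.Sq3

lemma eq_zero_of_pow_dvd (z : ℤ) (h : ∀ j : ℕ, (7 : ℤ) ^ j ∣ z) : z = 0 := by
  by_contra hz
  have h1 := h z.natAbs
  have h2 : 7 ^ z.natAbs ∣ z.natAbs := by
    have := Int.natAbs_dvd_natAbs.mpr h1
    rwa [Int.natAbs_pow] at this
  have h3 := Nat.le_of_dvd (Int.natAbs_pos.mpr hz) h2
  have h4 : z.natAbs < 7 ^ z.natAbs := Nat.lt_pow_self (by norm_num)
  omega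

/-- a family closed under `C ↦ -C` and under the flip of `w` lies on one axis -/
lemma descent0 (W : ℤ → ℤ → ℤ → Prop) (h1 : ∀ A B C, W A B C → W A B (-C))
    (h2 : ∀ A B C t, W A B C → 7 * t = 3 * A - 2 * B + C → W (A - 3 * t) (B + 2 * t) (C - t))
    (h3 : ∀ A B C, W A B C → (7 : ℤ) ∣ C ∧ (7 : ℤ) ∣ 3 * A - 2 * B) :
    ∀ A B C, W A B C → C = 0 ∧ 3 * A = 2 * B := by
  have key : ∀ j : ℕ, ∀ A B C, W A B C → (7 : ℤ) ^ j ∣ C ∧ (7 : ℤ) ^ j ∣ 3 * A - 2 * B := by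
    intro j
    induction j with
    | zero => intro A B C _; simp
    | succ j ih =>
      have aux : ∀ A B C, W A B C → (7 : ℤ) ^ (j + 1) ∣ 3 * A - 2 * B + C := by
        intro A B C hW
        obtain ⟨⟨p, hp⟩, ⟨q, hq⟩⟩ := h3 A B C hW
        have ht : 7 * (q + p) = 3 * A - 2 * B + C := by rw [hp, hq]; ring
        have hW2 := h2 A B C (q + p) hW ht
        have d1 := (ih A B C hW).1
        have d2 := (ih _ _ _ hW2).1
        have d3 : (7 : ℤ) ^ j ∣ (q + p) := by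
          have := dvd_sub d1 d2
          simpa using this
        rw [← ht, pow_succ, mul_comm]
        exact mul_dvd_mul_left 7 d3
      intro A B C hW
      have e1 := aux A B C hW
      have e2 := aux A B (-C) (h1 A B C hW)
      obtain ⟨i1, i2⟩ := ih A B C hW
      have i1' : (7 : ℤ) ^ (j + 1) ∣ 7 * C := by
        rw [pow_succ, mul_comm]; exact mul_dvd_mul_left 7 i1
      have i2' : (7 : ℤ) ^ (j + 1) ∣ 7 * (3 * A - 2 * B) := by
        rw [pow_succ, mul_comm]; exact mul_dvd_mul_left 7 i2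
      constructor
      · have : C = 4 * ((3 * A - 2 * B + C) - (3 * A - 2 * B + -C)) - 7 * C := by ring
        rw [this]
        exact dvd_sub (Dvd.dvd.mul_left (dvd_sub e1 e2) 4) i1'
      · have : 3 * A - 2 * B = 4 * ((3 * A - 2 * B + C) + (3 * A - 2 * B + -C))
            - 7 * (3 * A - 2 * B) := by ring
        rw [this]
        exact dvd_sub (Dvd.dvd.mul_left (dvd_add e1 e2) 4) i2'
  intro A B C hW
  refine ⟨eq_zero_of_pow_dvd C (fun j => (key j A B C hW).1), ?_⟩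
  have := eq_zero_of_pow_dvd (3 * A - 2 * B) (fun j => (key j A B C hW).2)
  linarith

/-- the same for the family in which the first two coordinates may be exchanged -/
lemma descent4 (W : ℤ → ℤ → ℤ → Prop) (h1 : ∀ A B C, W A B C → W B A C)
    (h2 : ∀ A B C t, W A B C → 7 * t = 3 * A - 2 * B + C → W (A - 3 * t) (B + 2 * t) (C - t))
    (h3 : ∀ A B C, W A B C → (7 : ℤ) ∣ A - B ∧ (7 : ℤ) ∣ B + C) :
    ∀ A B C, W A B C → A = B ∧ C = -B := by
  have key : ∀ j : ℕ, ∀ A B C, W A B C → (7 : ℤ) ^ j ∣ A - B ∧ (7 : ℤ) ^ j ∣ B + C := by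
    intro j
    induction j with
    | zero => intro A B C _; simp
    | succ j ih =>
      have aux : ∀ A B C, W A B C → (7 : ℤ) ^ (j + 1) ∣ 3 * A - 2 * B + C := by
        intro A B C hW
        obtain ⟨⟨p, hp⟩, ⟨q, hq⟩⟩ := h3 A B C hW
        have ht : 7 * (3 * p + q) = 3 * A - 2 * B + C := by
          have : 3 * A - 2 * B + C = 3 * (A - B) + (B + C) := by ring
          rw [this, hp, hq]; ring
        have hW2 := h2 A B C (3 * p + q) hW ht
        have d1 := (ih A B C hW).2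
        have d2 := (ih _ _ _ hW2).2
        have d3 : (7 : ℤ) ^ j ∣ (3 * p + q) := by
          have := dvd_sub d2 d1
          have e : (B + 2 * (3 * p + q) + (C - (3 * p + q))) - (B + C) = 3 * p + q := by ring
          rwa [e] at this
        rw [← ht, pow_succ, mul_comm]
        exact mul_dvd_mul_left 7 d3
      intro A B C hW
      have e1 := aux A B C hW
      have e2 := aux B A C (h1 A B C hW)
      obtain ⟨i1, i2⟩ := ih A B C hW
      have i1' : (7 : ℤ) ^ (j + 1) ∣ 7 * (A - B) := by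
        rw [pow_succ, mul_comm]; exact mul_dvd_mul_left 7 i1
      have f1 : (7 : ℤ) ^ (j + 1) ∣ A - B := by
        have : A - B = 3 * ((3 * A - 2 * B + C) - (3 * B - 2 * A + C)) - 2 * (7 * (A - B)) := by
          ring
        rw [this]
        exact dvd_sub (Dvd.dvd.mul_left (dvd_sub e1 e2) 3) (Dvd.dvd.mul_left i1' 2)
      refine ⟨f1, ?_⟩
      have : B + C = (3 * A - 2 * B + C) - 3 * (A - B) := by ring
      rw [this]
      exact dvd_sub e1 (Dvd.dvd.mul_left f1 3)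
  intro A B C hW
  have g1 := eq_zero_of_pow_dvd (A - B) (fun j => (key j A B C hW).1)
  have g2 := eq_zero_of_pow_dvd (B + C) (fun j => (key j A B C hW).2)
  constructor <;> linarith

lemma types (s C : ℤ) (hs : ¬ (7 : ℤ) ∣ s) : (7 : ℤ) ∣ C ∨ (7 : ℤ) ∣ C - s ∨ (7 : ℤ) ∣ C - 2 * s ∨
    (7 : ℤ) ∣ C - 3 * s ∨ (7 : ℤ) ∣ C - 4 * s ∨ (7 : ℤ) ∣ C - 5 * s ∨ (7 : ℤ) ∣ C - 6 * s := by
  have h : ∀ s C : ZMod 7, s ≠ 0 → C = 0 ∨ C - s = 0 ∨ C - 2 * s = 0 ∨ C - 3 * s = 0 ∨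
      C - 4 * s = 0 ∨ C - 5 * s = 0 ∨ C - 6 * s = 0 := by decide +kernel
  have h7 : ∀ z : ℤ, (7 : ℤ) ∣ z ↔ ((z : ℤ) : ZMod 7) = 0 := fun z =>
    (ZMod.intCast_zmod_eq_zero_iff_dvd z 7).symm
  rw [h7] at hs
  simp only [h7]
  push_cast
  exact h s C hs

lemma lt_sq (s L : ℤ) (hs : 0 < s) (h : s < L) : s ^ 2 < L ^ 2 := by nlinarith

lemma sq_mod8 (r : ℤ) : r ^ 2 % 8 = 0 ∨ r ^ 2 % 8 = 1 ∨ r ^ 2 % 8 = 4 := by
  have h : r % 8 = 0 ∨ r % 8 = 1 ∨ r % 8 = 2 ∨ r % 8 = 3 ∨ r % 8 = 4 ∨ r % 8 = 5 ∨ r % 8 = 6 ∨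
    r % 8 = 7 := by omega
  rcases h with h | h | h | h | h | h | h | h <;> simp [pow_two, Int.mul_emod, h]

/-- odd case: if `11 M ≤ s^2` then some representation has `2A + 3B ≤ s` -/
theorem caseO (M s : ℤ) (hs : 0 < s) (hs7 : ¬ (7 : ℤ) ∣ s) (hM : 11 * M ≤ s ^ 2)
    (hM8 : M % 8 = 6)
    (hex : ∃ A B C : ℤ, A ^ 2 + B ^ 2 + C ^ 2 = M ∧ (2 : ℤ) ∣ B ∧ Cg 7 s A B C) :
    ∃ A B C : ℤ, A ^ 2 + B ^ 2 + C ^ 2 = M ∧ (2 : ℤ) ∣ B ∧ Cg 7 s A B C ∧ 2 * A + 3 * B ≤ s := by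
  by_contra hcon
  push Not at hcon
  have hbad : ∀ A B C : ℤ, A ^ 2 + B ^ 2 + C ^ 2 = M → (2 : ℤ) ∣ B → Cg 7 s A B C →
      s < 2 * A + 3 * B := hcon
  have hO1 : ∀ A B C : ℤ, A ^ 2 + B ^ 2 + C ^ 2 = M → (2 : ℤ) ∣ B → Cg 7 s A B C →
      (7 : ℤ) ∣ C := by
    intro A B C h1 h2 h3
    have b0 := hbad A B C h1 h2 h3
    have hB2 : (2 : ℤ) ∣ -B := by omega
    obtain ⟨q1, q2, q3, q4⟩ := h3
    rcases types s C hs7 with h | h | h | h | h | h | h
    · exact h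
    · exfalso
      have b1 := hbad C B A (by rw [← h1]; ring) h2 ⟨by omega, by omega, by omega, by omega⟩
      have b2 := lt_sq s (A + C + 3 * B) hs (by linarith)
      nlinarith [sq_nonneg (A - C), sq_nonneg (3 * A - B), sq_nonneg (3 * C - B)]
    · exfalso
      have b1 := hbad A (-B) C (by rw [← h1]; ring) hB2 ⟨by omega, by omega, by omega, by omega⟩
      have b2 := lt_sq s (2 * A) hs (by linarith)
      nlinarith [sq_nonneg A, sq_nonneg B, sq_nonneg C]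
    · exfalso
      have b1 := hbad (-A) B C (by rw [← h1]; ring) h2 ⟨by omega, by omega, by omega, by omega⟩
      have b2 := lt_sq s (3 * B) hs (by linarith)
      nlinarith [sq_nonneg A, sq_nonneg B, sq_nonneg C]
    · exfalso
      have b1 := hbad (-C) B (-A) (by rw [← h1]; ring) h2
        ⟨by omega, by omega, by omega, by omega⟩
      have b2 := lt_sq s (A - C + 3 * B) hs (by linarith)
      nlinarith [sq_nonneg (A + C), sq_nonneg (3 * A - B), sq_nonneg (3 * C + B)]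
    · exfalso
      have b1 := hbad (-C) (-B) A (by rw [← h1]; ring) hB2
        ⟨by omega, by omega, by omega, by omega⟩
      have b2 := lt_sq s (A - C) hs (by linarith)
      nlinarith [sq_nonneg (A + C), sq_nonneg A, sq_nonneg B, sq_nonneg C]
    · exfalso
      have b1 := hbad C (-B) (-A) (by rw [← h1]; ring) hB2
        ⟨by omega, by omega, by omega, by omega⟩
      have b2 := lt_sq s (A + C) hs (by linarith)
      nlinarith [sq_nonneg (A - C), sq_nonneg A, sq_nonneg B, sq_nonneg C]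
  obtain ⟨A, B, C, h1, h2, h3⟩ := hex
  have hd := descent0 (fun A B C => A ^ 2 + B ^ 2 + C ^ 2 = M ∧ (2 : ℤ) ∣ B ∧ Cg 7 s A B C)
    (by
      rintro A B C ⟨k1, k2, k3⟩
      have h7 := hO1 A B C k1 k2 k3
      obtain ⟨q1, q2, q3, q4⟩ := k3
      exact ⟨by rw [← k1]; ring, k2, by omega, by omega, by omega, by omega⟩)
    (by
      rintro A B C t ⟨k1, k2, k3⟩ ht
      obtain ⟨q1, q2, q3, q4⟩ := k3
      refine ⟨?_, by omega, by omega, by omega, by omega, by omega⟩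
      have : (A - 3 * t) ^ 2 + (B + 2 * t) ^ 2 + (C - t) ^ 2
          = (A ^ 2 + B ^ 2 + C ^ 2) - 2 * t * (3 * A - 2 * B + C) + 14 * t ^ 2 := by ring
      rw [this, ← ht, k1]; ring)
    (by
      rintro A B C ⟨k1, k2, k3⟩
      have h7 := hO1 A B C k1 k2 k3
      obtain ⟨q1, q2, q3, q4⟩ := k3
      exact ⟨h7, by omega⟩) A B C ⟨h1, h2, h3⟩
  obtain ⟨hC, hAB⟩ := hd
  obtain ⟨r, hr⟩ : ∃ r, A = 2 * r := ⟨A - B + (B - A) + (A / 2), by omega⟩
  have hr2 : B = 3 * r := by omega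
  have : 13 * r ^ 2 = M := by rw [← h1, hr, hr2, hC]; ring
  rcases sq_mod8 r with h | h | h <;> omega

end Pool.Agent.Sq3
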