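import Mathlib
import Pool.Agent.Sq3.Desc

set_option autoImplicit false

namespace Pool.Agent.Sq3

lemma mv_h (s A B C : ℤ) (h : Cg 7 s A B C) : Cg 7 s B (-C) (-A) := by
  obtain ⟨q1, q2, q3, q4⟩ := h
  exact ⟨by omega, by omega, by omega, by omega⟩

lemma mv_s (s A B C t : ℤ) (h : Cg 7 s A B C) (ht : 7 * t = 3 * A - 2 * B + C) :
    Cg 7 s (A - 3 * t) (B + 2 * t) (C - t) := by
  obtain ⟨q1, q2, q3, q4⟩ := h
  exact ⟨by omega, by omega, by omega, by omega⟩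

lemma sq_s (M A B C t : ℤ) (k1 : A ^ 2 + B ^ 2 + C ^ 2 = M) (ht : 7 * t = 3 * A - 2 * B + C) :
    (A - 3 * t) ^ 2 + (B + 2 * t) ^ 2 + (C - t) ^ 2 = M := by
  have : (A - 3 * t) ^ 2 + (B + 2 * t) ^ 2 + (C - t) ^ 2
      = (A ^ 2 + B ^ 2 + C ^ 2) - 2 * t * (3 * A - 2 * B + C) + 14 * t ^ 2 := by ring
  rw [this, ← ht, k1]; ring

lemma mv0 (s A B C : ℤ) (h : Cg 7 s A B C) (hC : (7 : ℤ) ∣ C) : Cg 7 s A B (-C) := by
  obtain ⟨q1, q2, q3, q4⟩ := h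
  exact ⟨by omega, by omega, by omega, by omega⟩

lemma mv1 (s A B C : ℤ) (h : Cg 7 s A B C) (hC : (7 : ℤ) ∣ C - s) : Cg 7 s C B A := by
  obtain ⟨q1, q2, q3, q4⟩ := h
  exact ⟨by omega, by omega, by omega, by omega⟩

lemma mv2 (s A B C : ℤ) (h : Cg 7 s A B C) (hC : (7 : ℤ) ∣ C - 2 * s) : Cg 7 s A (-B) C := by
  obtain ⟨q1, q2, q3, q4⟩ := h
  exact ⟨by omega, by omega, by omega, by omega⟩

lemma mv3 (s A B C : ℤ) (h : Cg 7 s A B C) (hC : (7 : ℤ) ∣ C - 3 * s) : Cg 7 s (-A) B C := by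
  obtain ⟨q1, q2, q3, q4⟩ := h
  exact ⟨by omega, by omega, by omega, by omega⟩

lemma mv4 (s A B C : ℤ) (h : Cg 7 s A B C) (hC : (7 : ℤ) ∣ C - 4 * s) : Cg 7 s B A C := by
  obtain ⟨q1, q2, q3, q4⟩ := h
  exact ⟨by omega, by omega, by omega, by omega⟩

lemma mv4' (s A B C : ℤ) (h : Cg 7 s A B C) (hC : (7 : ℤ) ∣ C - 4 * s) :
    Cg 7 s A (-C) (-B) := by
  obtain ⟨q1, q2, q3, q4⟩ := h
  exact ⟨by omega, by omega, by omega, by omega⟩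

lemma ine1 (A B C M s : ℤ) (hM : 5 * M ≤ 2 * s ^ 2) (h1 : A ^ 2 + B ^ 2 + C ^ 2 = M)
    (h : s ^ 2 < B ^ 2) : False := by
  nlinarith [sq_nonneg A, sq_nonneg B, sq_nonneg C, sq_nonneg s]

lemma ine2 (a b c M s : ℤ) (hM : 5 * M ≤ 2 * s ^ 2) (h1 : a ^ 2 + b ^ 2 + c ^ 2 = M)
    (h : (19 * s) ^ 2 < (24 * a) ^ 2) : False := by
  nlinarith [sq_nonneg a, sq_nonneg b, sq_nonneg c, sq_nonneg s]

lemma ine3 (a b c M s : ℤ) (hM : 5 * M ≤ 2 * s ^ 2) (h1 : a ^ 2 + b ^ 2 + c ^ 2 = M)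
    (h : (19 * s) ^ 2 < (36 * b) ^ 2) (h2 : s ^ 2 < (-2 * c) ^ 2) : False := by
  nlinarith [sq_nonneg a, sq_nonneg b, sq_nonneg c, sq_nonneg s]

lemma ine4 (A B C M s : ℤ) (hM : 5 * M ≤ 2 * s ^ 2) (h1 : A ^ 2 + B ^ 2 + C ^ 2 = M)
    (h : (139 * s) ^ 2 < (25 * (5 * A + 6 * B)) ^ 2) : False := by
  nlinarith [sq_nonneg (6 * A - 5 * B), sq_nonneg C, sq_nonneg s]

lemma ine5 (A B C M s : ℤ) (hM : 5 * M ≤ 2 * s ^ 2) (h1 : A ^ 2 + B ^ 2 + C ^ 2 = M)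
    (h : (59 * s) ^ 2 < (100 * B) ^ 2) (h2 : (37 * s) ^ 2 < (100 * A) ^ 2) : False := by
  nlinarith [sq_nonneg C, sq_nonneg s]

/-- the hypothesis that every representation is bad -/
def AllBad (M s : ℤ) : Prop :=
  ∀ A B C : ℤ, A ^ 2 + B ^ 2 + C ^ 2 = M → Cg 7 s A B C → s < 2 * A + 3 * B

lemma sq_h (M A B C : ℤ) (h1 : A ^ 2 + B ^ 2 + C ^ 2 = M) : B ^ 2 + (-C) ^ 2 + (-A) ^ 2 = M := by
  rw [← h1]; ring

lemma bad_h (M s : ℤ) (hbad : AllBad M s) (A B C : ℤ) (h1 : A ^ 2 + B ^ 2 + C ^ 2 = M)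
    (h2 : Cg 7 s A B C) : s < 2 * B - 3 * C := by
  have := hbad B (-C) (-A) (sq_h M A B C h1) (mv_h s A B C h2)
  linarith

lemma bad_hh (M s : ℤ) (hbad : AllBad M s) (A B C : ℤ) (h1 : A ^ 2 + B ^ 2 + C ^ 2 = M)
    (h2 : Cg 7 s A B C) : s < 3 * A - 2 * C := by
  have := bad_h M s hbad B (-C) (-A) (sq_h M A B C h1) (mv_h s A B C h2)
  linarith

lemma typeII (M s : ℤ) (hs : 0 < s) (hM : 5 * M ≤ 2 * s ^ 2) (hbad : AllBad M s) (A B C : ℤ)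
    (h1 : A ^ 2 + B ^ 2 + C ^ 2 = M) (h2 : Cg 7 s A B C) : ¬ (7 : ℤ) ∣ C - s := by
  intro h
  have h1' : C ^ 2 + B ^ 2 + A ^ 2 = M := by rw [← h1]; ring
  have h2' := mv1 s A B C h2 h
  have b1 := bad_h M s hbad A B C h1 h2
  have b2 := bad_h M s hbad C B A h1' h2'
  have b3 := bad_hh M s hbad A B C h1 h2
  have b4 := bad_hh M s hbad C B A h1' h2'
  exact ine1 A B C M s hM h1 (lt_sq s B hs (by linarith))

lemma c5_to_c1 (s A B C : ℤ) (h2 : Cg 7 s A B C) (h : (7 : ℤ) ∣ C - 5 * s) :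
    (7 : ℤ) ∣ -A - s := by
  obtain ⟨q1, q2, q3, q4⟩ := h2
  omega

lemma c6_to_c5 (s A B C : ℤ) (h2 : Cg 7 s A B C) (h : (7 : ℤ) ∣ C - 6 * s) :
    (7 : ℤ) ∣ -A - 5 * s := by
  obtain ⟨q1, q2, q3, q4⟩ := h2
  omega

lemma c3_to_c0 (s A B C : ℤ) (h2 : Cg 7 s A B C) (h : (7 : ℤ) ∣ C - 3 * s) : (7 : ℤ) ∣ -A := by
  obtain ⟨q1, q2, q3, q4⟩ := h2
  omega

lemma c2_to_c3 (s A B C : ℤ) (h2 : Cg 7 s A B C) (h : (7 : ℤ) ∣ C - 2 * s) :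
    (7 : ℤ) ∣ -A - 3 * s := by
  obtain ⟨q1, q2, q3, q4⟩ := h2
  omega

lemma typeII5 (M s : ℤ) (hs : 0 < s) (hM : 5 * M ≤ 2 * s ^ 2) (hbad : AllBad M s) (A B C : ℤ)
    (h1 : A ^ 2 + B ^ 2 + C ^ 2 = M) (h2 : Cg 7 s A B C) : ¬ (7 : ℤ) ∣ C - 5 * s := fun h =>
  typeII M s hs hM hbad B (-C) (-A) (sq_h M A B C h1) (mv_h s A B C h2) (c5_to_c1 s A B C h2 h)

lemma typeII6 (M s : ℤ) (hs : 0 < s) (hM : 5 * M ≤ 2 * s ^ 2) (hbad : AllBad M s) (A B C : ℤ)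
    (h1 : A ^ 2 + B ^ 2 + C ^ 2 = M) (h2 : Cg 7 s A B C) : ¬ (7 : ℤ) ∣ C - 6 * s := fun h =>
  typeII5 M s hs hM hbad B (-C) (-A) (sq_h M A B C h1) (mv_h s A B C h2) (c6_to_c5 s A B C h2 h)

/-- the flip keeps type `0` -/
lemma flip0 (M s : ℤ) (hs : 0 < s) (hs7 : ¬ (7 : ℤ) ∣ s) (hM : 5 * M ≤ 2 * s ^ 2)
    (hbad : AllBad M s) (A B C t : ℤ)
    (h1 : A ^ 2 + B ^ 2 + C ^ 2 = M) (h2 : Cg 7 s A B C) (h7 : (7 : ℤ) ∣ C)
    (ht : 7 * t = 3 * A - 2 * B + C) : (7 : ℤ) ∣ C - t := by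
  have h1' : A ^ 2 + B ^ 2 + (-C) ^ 2 = M := by rw [← h1]; ring
  have h2' := mv0 s A B C h2 h7
  have i1 := bad_h M s hbad A B C h1 h2
  have i2 := bad_h M s hbad A B (-C) h1' h2'
  have i3 := bad_hh M s hbad A B C h1 h2
  have i4 := bad_hh M s hbad A B (-C) h1' h2'
  have hA : s < 3 * A := by linarith
  have hB : s < 2 * B := by linarith
  have hsum := sq_s M A B C t h1 ht
  have hc := mv_s s A B C t h2 ht
  obtain ⟨a, ha⟩ : ∃ a, a = A - 3 * t := ⟨_, rfl⟩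
  obtain ⟨b, hb⟩ : ∃ b, b = B + 2 * t := ⟨_, rfl⟩
  obtain ⟨c, hc'⟩ : ∃ c, c = C - t := ⟨_, rfl⟩
  rw [← ha, ← hb, ← hc'] at hc hsum
  rw [← hc']
  have e2 : 2 * a + 3 * b = 2 * A + 3 * B := by rw [ha, hb]; ring
  rcases types s c hs7 with h | h | h | h | h | h | h
  · exact h
  · exact (typeII M s hs hM hbad a b c hsum hc h).elim
  · exfalso
    have e1 := hbad a (-b) c (by rw [← hsum]; ring) (mv2 s a b c hc h)
    exact ine2 a b c M s hM hsum (lt_sq (19 * s) (24 * a) (by linarith) (by linarith))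
  · exfalso
    have hm := mv3 s a b c hc h
    have hsm : (-a) ^ 2 + b ^ 2 + c ^ 2 = M := by rw [← hsum]; ring
    have e1 := hbad (-a) b c hsm hm
    have e4 := bad_hh M s hbad (-a) b c hsm hm
    have e5 := bad_hh M s hbad a b c hsum hc
    exact ine3 a b c M s hM hsum (lt_sq (19 * s) (36 * b) (by linarith) (by linarith))
      (lt_sq s (-2 * c) hs (by linarith))
  · exfalso
    have e1 := hbad a (-c) (-b) (by rw [← hsum]; ring) (mv4' s a b c hc h)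
    have e3 : 5 * A + 6 * B - 24 * C > 7 * s := by
      have : 7 * (2 * a + 3 * -c) = 5 * A + 6 * B - 24 * C := by
        rw [ha, hc']
        have : 7 * (2 * (A - 3 * t) + 3 * -(C - t)) = 14 * A - 21 * C - 3 * (7 * t) := by ring
        rw [this, ht]; ring
      linarith
    by_cases hcc : -3 * s ≤ 50 * C
    · exact ine4 A B C M s hM h1
        (lt_sq (139 * s) (25 * (5 * A + 6 * B)) (by linarith) (by linarith))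
    · push Not at hcc
      exact ine5 A B C M s hM h1 (lt_sq (59 * s) (100 * B) (by linarith) (by linarith))
        (lt_sq (37 * s) (100 * A) (by linarith) (by linarith))
  · exact (typeII5 M s hs hM hbad a b c hsum hc h).elim
  · exact (typeII6 M s hs hM hbad a b c hsum hc h).elim

lemma cg_div0 (s A B C : ℤ) (h2 : Cg 7 s A B C) (h7 : (7 : ℤ) ∣ C) : (7 : ℤ) ∣ 3 * A - 2 * B := by
  obtain ⟨q1, q2, q3, q4⟩ := h2
  omega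

lemma cg_div4 (s A B C : ℤ) (h2 : Cg 7 s A B C) (h7 : (7 : ℤ) ∣ C - 4 * s) :
    (7 : ℤ) ∣ A - B ∧ (7 : ℤ) ∣ B + C := by
  obtain ⟨q1, q2, q3, q4⟩ := h2
  exact ⟨by omega, by omega⟩

lemma type0 (M s : ℤ) (hs : 0 < s) (hs7 : ¬ (7 : ℤ) ∣ s) (hM : 5 * M ≤ 2 * s ^ 2)
    (hM8 : M % 8 = 6) (hbad : AllBad M s) (A B C : ℤ)
    (h1 : A ^ 2 + B ^ 2 + C ^ 2 = M) (h2 : Cg 7 s A B C) : ¬ (7 : ℤ) ∣ C := by
  intro h7
  have hd := descent0 (fun A B C => A ^ 2 + B ^ 2 + C ^ 2 = M ∧ Cg 7 s A B C ∧ (7 : ℤ) ∣ C)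
    (fun A B C hW => ⟨by rw [← hW.1]; ring, mv0 s A B C hW.2.1 hW.2.2, (dvd_neg).mpr hW.2.2⟩)
    (fun A B C t hW ht => ⟨sq_s M A B C t hW.1 ht, mv_s s A B C t hW.2.1 ht,
      flip0 M s hs hs7 hM hbad A B C t hW.1 hW.2.1 hW.2.2 ht⟩)
    (fun A B C hW => ⟨hW.2.2, cg_div0 s A B C hW.2.1 hW.2.2⟩) A B C ⟨h1, h2, h7⟩
  obtain ⟨hC, hAB⟩ := hd
  obtain ⟨r, hr⟩ : ∃ r, A = 2 * r := ⟨A / 2, by omega⟩
  have hr2 : B = 3 * r := by omega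
  have : 13 * r ^ 2 = M := by rw [← h1, hr, hr2, hC]; ring
  rcases sq_mod8 r with h | h | h <;> omega

lemma type3 (M s : ℤ) (hs : 0 < s) (hs7 : ¬ (7 : ℤ) ∣ s) (hM : 5 * M ≤ 2 * s ^ 2)
    (hM8 : M % 8 = 6) (hbad : AllBad M s) (A B C : ℤ)
    (h1 : A ^ 2 + B ^ 2 + C ^ 2 = M) (h2 : Cg 7 s A B C) : ¬ (7 : ℤ) ∣ C - 3 * s := fun h =>
  type0 M s hs hs7 hM hM8 hbad B (-C) (-A) (sq_h M A B C h1) (mv_h s A B C h2)
    (c3_to_c0 s A B C h2 h)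

lemma type2 (M s : ℤ) (hs : 0 < s) (hs7 : ¬ (7 : ℤ) ∣ s) (hM : 5 * M ≤ 2 * s ^ 2)
    (hM8 : M % 8 = 6) (hbad : AllBad M s) (A B C : ℤ)
    (h1 : A ^ 2 + B ^ 2 + C ^ 2 = M) (h2 : Cg 7 s A B C) : ¬ (7 : ℤ) ∣ C - 2 * s := fun h =>
  type3 M s hs hs7 hM hM8 hbad B (-C) (-A) (sq_h M A B C h1) (mv_h s A B C h2)
    (c2_to_c3 s A B C h2 h)

/-- even case: if `5 M ≤ 2 s^2` then some representation has `2A + 3B ≤ s` -/
theorem caseE (M s : ℤ) (hs : 0 < s) (hs7 : ¬ (7 : ℤ) ∣ s) (hM : 5 * M ≤ 2 * s ^ 2)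
    (hM8 : M % 8 = 6)
    (hex : ∃ A B C : ℤ, A ^ 2 + B ^ 2 + C ^ 2 = M ∧ Cg 7 s A B C) :
    ∃ A B C : ℤ, A ^ 2 + B ^ 2 + C ^ 2 = M ∧ Cg 7 s A B C ∧ 2 * A + 3 * B ≤ s := by
  by_contra hcon
  push Not at hcon
  have hbad : AllBad M s := hcon
  have hE4 : ∀ A B C : ℤ, A ^ 2 + B ^ 2 + C ^ 2 = M → Cg 7 s A B C → (7 : ℤ) ∣ C - 4 * s := by
    intro A B C h1 h2
    rcases types s C hs7 with h | h | h | h | h | h | h
    · exact (type0 M s hs hs7 hM hM8 hbad A B C h1 h2 h).elim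
    · exact (typeII M s hs hM hbad A B C h1 h2 h).elim
    · exact (type2 M s hs hs7 hM hM8 hbad A B C h1 h2 h).elim
    · exact (type3 M s hs hs7 hM hM8 hbad A B C h1 h2 h).elim
    · exact h
    · exact (typeII5 M s hs hM hbad A B C h1 h2 h).elim
    · exact (typeII6 M s hs hM hbad A B C h1 h2 h).elim
  have hd := descent4 (fun A B C => A ^ 2 + B ^ 2 + C ^ 2 = M ∧ Cg 7 s A B C)
    (fun A B C hW => ⟨by rw [← hW.1]; ring, mv4 s A B C hW.2 (hE4 A B C hW.1 hW.2)⟩)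
    (fun A B C t hW ht => ⟨sq_s M A B C t hW.1 ht, mv_s s A B C t hW.2 ht⟩)
    (fun A B C hW => cg_div4 s A B C hW.2 (hE4 A B C hW.1 hW.2))
  obtain ⟨A, B, C, h1, h2⟩ := hex
  obtain ⟨e1, e2⟩ := hd A B C ⟨h1, h2⟩
  have : 3 * A ^ 2 = M := by
    rw [← h1, e2, ← e1]; ring
  rcases sq_mod8 A with h | h | h <;> omega

end Pool.Agent.Sq3
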