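import Mathlib
import Pool.Agent.Sq3.Even

set_option autoImplicit false

namespace Pool.Agent.Sq3

lemma nonneg_yz (n s x y z w : ℤ) (hs : 0 < s) (h10 : 10 * n ^ 2 ≤ s ^ 2)
    (h1 : n ^ 2 = x ^ 2 + y ^ 2 + z ^ 2 + w ^ 2) (h2 : x + 2 * y + 3 * z = s) :
    0 ≤ y ∧ 0 ≤ z := by
  refine ⟨?_, ?_⟩
  · by_contra hx
    push Not at hx
    have h3 : s < x + 3 * z := by linarith
    have h4 : s ^ 2 < (x + 3 * z) ^ 2 := by nlinarith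
    nlinarith [sq_nonneg (3 * x - z), sq_nonneg w, sq_nonneg y, sq_nonneg x, sq_nonneg z]
  · by_contra hx
    push Not at hx
    have h3 : s < x + 2 * y := by linarith
    have h4 : s ^ 2 < (x + 2 * y) ^ 2 := by nlinarith
    nlinarith [sq_nonneg (2 * x - y), sq_nonneg w, sq_nonneg y, sq_nonneg x, sq_nonneg z]

lemma toNat4 (n s : ℕ) (x y z w : ℤ) (hx : 0 ≤ x) (hy : 0 ≤ y) (hz : 0 ≤ z)
    (h1 : (n : ℤ) ^ 2 = x ^ 2 + y ^ 2 + z ^ 2 + w ^ 2) (h2 : x + 2 * y + 3 * z = s) :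
    ∃ x y z w : ℕ, n ^ 2 = x ^ 2 + y ^ 2 + z ^ 2 + w ^ 2 ∧ x + 2 * y + 3 * z = s := by
  lift x to ℕ using hx
  lift y to ℕ using hy
  lift z to ℕ using hz
  refine ⟨x, y, z, w.natAbs, ?_, by exact_mod_cast h2⟩
  have : (n : ℤ) ^ 2 = (x : ℤ) ^ 2 + (y : ℤ) ^ 2 + (z : ℤ) ^ 2 + (w.natAbs : ℤ) ^ 2 := by
    rw [h1, Int.natAbs_sq]
  exact_mod_cast this

lemma parity (z : ℤ) : (z % 2 = 0 ∧ z ^ 2 % 4 = 0) ∨ (z % 2 = 1 ∧ z ^ 2 % 4 = 1) := by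
  rcases Int.even_or_odd' z with ⟨k, rfl | rfl⟩
  · left; constructor
    · omega
    · have : (2 * k) ^ 2 = 4 * k ^ 2 := by ring
      omega
  · right; constructor
    · omega
    · have : (2 * k + 1) ^ 2 = 4 * (k ^ 2 + k) + 1 := by ring
      omega

/-- the number `14 m^2 - s^2` as a sum of three squares with even middle term -/
lemma rep (m s : ℕ) (hm : m % 2 = 1) (hs : s % 4 = 0) (h : s ^ 2 ≤ 14 * m ^ 2) :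
    (14 * (m : ℤ) ^ 2 - (s : ℤ) ^ 2) % 8 = 6 ∧
    ∃ A B C : ℤ, A ^ 2 + B ^ 2 + C ^ 2 = 14 * (m : ℤ) ^ 2 - (s : ℤ) ^ 2 ∧ (2 : ℤ) ∣ B := by
  obtain ⟨M, hM⟩ : ∃ M, M = 14 * m ^ 2 - s ^ 2 := ⟨_, rfl⟩
  have hM1 : M + s ^ 2 = 14 * m ^ 2 := by omega
  have hn2 : m ^ 2 % 8 = 1 := by
    obtain ⟨k, hk⟩ : ∃ k, m = 2 * k + 1 := ⟨m / 2, by omega⟩
    have h1 : m ^ 2 = 4 * (k * (k + 1)) + 1 := by rw [hk]; ring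
    obtain ⟨l, hl⟩ := Nat.even_mul_succ_self k
    omega
  have hs2 : s ^ 2 % 8 = 0 := by
    obtain ⟨k, hk⟩ : ∃ k, s = 4 * k := ⟨s / 4, by omega⟩
    have h1 : s ^ 2 = 8 * (2 * k ^ 2) := by rw [hk]; ring
    omega
  have hM4 : M % 8 = 6 := by omega
  have hMz : (M : ℤ) = 14 * (m : ℤ) ^ 2 - (s : ℤ) ^ 2 := by
    have : (M : ℤ) + (s : ℤ) ^ 2 = 14 * (m : ℤ) ^ 2 := by exact_mod_cast hM1
    linarith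
  obtain ⟨u, v, w, huvw⟩ := three_squares M (by omega)
  rw [← hMz]
  refine ⟨by omega, ?_⟩
  rcases parity u with ⟨hu, hu'⟩ | ⟨hu, hu'⟩ <;> rcases parity v with ⟨hv, hv'⟩ | ⟨hv, hv'⟩ <;>
    rcases parity w with ⟨hw, hw'⟩ | ⟨hw, hw'⟩ <;> try (exfalso; omega)
  · exact ⟨v, u, w, by linarith, by omega⟩
  · exact ⟨u, v, w, by linarith, by omega⟩
  · exact ⟨u, w, v, by linarith, by omega⟩

lemma rep7 (m s : ℕ) (hm : m % 2 = 1) (hs : s % 4 = 0) (hs7 : ¬ 7 ∣ s)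
    (h : s ^ 2 ≤ 14 * m ^ 2) :
    (14 * (m : ℤ) ^ 2 - (s : ℤ) ^ 2) % 8 = 6 ∧
    ∃ A B C : ℤ, A ^ 2 + B ^ 2 + C ^ 2 = 14 * (m : ℤ) ^ 2 - (s : ℤ) ^ 2 ∧ (2 : ℤ) ∣ B ∧
      Cg 7 s A B C := by
  obtain ⟨h8, A, B, C, h1, h2⟩ := rep m s hm hs h
  refine ⟨h8, ?_⟩
  have hs7' : ¬ (7 : ℤ) ∣ (s : ℤ) := by exact_mod_cast hs7
  have hd : (7 : ℤ) ∣ (s : ℤ) ^ 2 + A ^ 2 + B ^ 2 + C ^ 2 := ⟨2 * (m : ℤ) ^ 2, by linarith⟩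
  obtain ⟨e, f, g, he, hf, hg, hh | hh⟩ := cg7 s A B C hs7' hd
  · refine ⟨e * A, f * B, g * C, ?_, Dvd.dvd.mul_left h2 f, hh⟩
    rw [mul_pow, mul_pow, mul_pow, he, hf, hg, ← h1]; ring
  · refine ⟨e * C, f * B, g * A, ?_, Dvd.dvd.mul_left h2 f, hh⟩
    rw [mul_pow, mul_pow, mul_pow, he, hf, hg, ← h1]; ring

/-- window for odd `m` -/
lemma oddWindow (m s : ℕ) (hm : m % 2 = 1) (hs : s % 4 = 0) (hs7 : ¬ 7 ∣ s)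
    (h77 : 77 * m ^ 2 ≤ 6 * s ^ 2) (h14 : s ^ 2 ≤ 14 * m ^ 2) :
    ∃ x y z w : ℕ, m ^ 2 = x ^ 2 + y ^ 2 + z ^ 2 + w ^ 2 ∧ x + 2 * y + 3 * z = s := by
  have hs7' : ¬ (7 : ℤ) ∣ (s : ℤ) := by exact_mod_cast hs7
  have hspos : (0 : ℤ) < s := by
    have : s ≠ 0 := by rintro rfl; simp at hs7
    omega
  obtain ⟨h8, hex⟩ := rep7 m s hm hs hs7 h14
  have h77' : 77 * (m : ℤ) ^ 2 ≤ 6 * (s : ℤ) ^ 2 := by exact_mod_cast h77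
  obtain ⟨A, B, C, h1, h2, h3, h4⟩ := caseO (14 * (m : ℤ) ^ 2 - (s : ℤ) ^ 2) s hspos hs7'
    (by linarith) h8 hex
  have hs2 : (s : ℤ) % 2 = 0 := by omega
  have hAC : (2 : ℤ) ∣ A + C := by
    have e1 : (14 * (m : ℤ) ^ 2 - (s : ℤ) ^ 2) % 2 = 0 := by omega
    rw [← h1] at e1
    rcases parity A with ⟨ha, ha'⟩ | ⟨ha, ha'⟩ <;> rcases parity C with ⟨hc, hc'⟩ | ⟨hc, hc'⟩ <;>
      rcases parity B with ⟨hb, hb'⟩ | ⟨hb, hb'⟩ <;> omega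
  obtain ⟨q1, q2, q3, q4⟩ := h3
  have k1 : (14 : ℤ) ∣ s - 2 * A - 3 * B := by omega
  have k2 : (14 : ℤ) ∣ 2 * s + A - 3 * C := by omega
  have k3 : (14 : ℤ) ∣ 3 * s + B + 2 * C := by omega
  have k4 : (14 : ℤ) ∣ C + 3 * A - 2 * B := by omega
  obtain ⟨x, hx⟩ := k1
  obtain ⟨y, hy⟩ := k2
  obtain ⟨z, hz⟩ := k3
  obtain ⟨w, hw⟩ := k4
  have hsum : (m : ℤ) ^ 2 = x ^ 2 + y ^ 2 + z ^ 2 + w ^ 2 := by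
    have e1 : 196 * (x ^ 2 + y ^ 2 + z ^ 2 + w ^ 2)
        = (14 * x) ^ 2 + (14 * y) ^ 2 + (14 * z) ^ 2 + (14 * w) ^ 2 := by ring
    have e2 : (s - 2 * A - 3 * B) ^ 2 + (2 * s + A - 3 * C) ^ 2 + (3 * s + B + 2 * C) ^ 2
        + (C + 3 * A - 2 * B) ^ 2 = 14 * ((s : ℤ) ^ 2 + (A ^ 2 + B ^ 2 + C ^ 2)) := by ring
    rw [← hx, ← hy, ← hz, ← hw, e2, h1] at e1
    linarith
  have hlin : x + 2 * y + 3 * z = (s : ℤ) := by omega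
  have hx0 : 0 ≤ x := by omega
  have h10 : 10 * (m : ℤ) ^ 2 ≤ (s : ℤ) ^ 2 := by nlinarith [sq_nonneg (m : ℤ)]
  obtain ⟨hy0, hz0⟩ := nonneg_yz m s x y z w hspos h10 hsum hlin
  exact toNat4 m s x y z w hx0 hy0 hz0 hsum hlin

/-- window for `2 m`, `m` odd -/
lemma evenWindow (m s : ℕ) (hm : m % 2 = 1) (hs : s % 4 = 0) (hs7 : ¬ 7 ∣ s)
    (h10 : 10 * m ^ 2 ≤ s ^ 2) (h14 : s ^ 2 ≤ 14 * m ^ 2) :
    ∃ x y z w : ℕ, (2 * m) ^ 2 = x ^ 2 + y ^ 2 + z ^ 2 + w ^ 2 ∧ x + 2 * y + 3 * z = 2 * s := by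
  have hs7' : ¬ (7 : ℤ) ∣ (s : ℤ) := by exact_mod_cast hs7
  have hspos : (0 : ℤ) < s := by
    have : s ≠ 0 := by rintro rfl; simp at hs7
    omega
  obtain ⟨h8, A0, B0, C0, g1, -, g3⟩ := rep7 m s hm hs hs7 h14
  have h10' : 10 * (m : ℤ) ^ 2 ≤ (s : ℤ) ^ 2 := by exact_mod_cast h10
  obtain ⟨A, B, C, h1, h3, h4⟩ := caseE (14 * (m : ℤ) ^ 2 - (s : ℤ) ^ 2) s hspos hs7'
    (by linarith) h8 ⟨A0, B0, C0, g1, g3⟩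
  obtain ⟨⟨x, hx⟩, ⟨y, hy⟩, ⟨z, hz⟩, ⟨w, hw⟩⟩ := h3
  have hsum : ((2 * m : ℕ) : ℤ) ^ 2 = x ^ 2 + y ^ 2 + z ^ 2 + w ^ 2 := by
    have e1 : 49 * (x ^ 2 + y ^ 2 + z ^ 2 + w ^ 2)
        = (7 * x) ^ 2 + (7 * y) ^ 2 + (7 * z) ^ 2 + (7 * w) ^ 2 := by ring
    have e2 : (s - 2 * A - 3 * B) ^ 2 + (2 * s + A - 3 * C) ^ 2 + (3 * s + B + 2 * C) ^ 2
        + (C + 3 * A - 2 * B) ^ 2 = 14 * ((s : ℤ) ^ 2 + (A ^ 2 + B ^ 2 + C ^ 2)) := by ring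
    rw [← hx, ← hy, ← hz, ← hw, e2, h1] at e1
    push_cast
    linarith
  have hlin : x + 2 * y + 3 * z = ((2 * s : ℕ) : ℤ) := by push_cast; omega
  have hx0 : 0 ≤ x := by omega
  have h10'' : 10 * ((2 * m : ℕ) : ℤ) ^ 2 ≤ ((2 * s : ℕ) : ℤ) ^ 2 := by
    push_cast
    linarith
  obtain ⟨hy0, hz0⟩ := nonneg_yz (2 * m : ℕ) (2 * s : ℕ) x y z w (by push_cast; linarith)
    h10'' hsum hlin
  exact toNat4 (2 * m) (2 * s) x y z w hx0 hy0 hz0 hsum hlin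

end Pool.Agent.Sq3
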